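import Pool.Agent.helper78.HR.Defs

/-! # hr:DU (MP_58257a_co): LP duality for fractional packings and coverings (helper82) -/

set_option autoImplicit false

namespace Pool.Agent.helper78.HR

open Finset

/-- from integral packings to real packings. -/
theorem hrDU_real {T Z : Type*} (A : Finset T) (G : Finset Z)
    (R : T → Z → Prop) [∀ f z, Decidable (R f z)] (B : ℕ)
    (h : ∀ (k : ℕ) (w : T → ℕ), (∀ z ∈ G, ∑ f ∈ A.filter (fun f => R f z), w f ≤ k) →
      ∑ f ∈ A, w f ≤ k * B) (lam : T → ℝ) (h0 : ∀ f ∈ A, 0 ≤ lam f) (m : ℝ) (hm : 0 ≤ m)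
    (hl : ∀ z ∈ G, ∑ f ∈ A.filter (fun f => R f z), lam f ≤ m) : ∑ f ∈ A, lam f ≤ m * B := by
  by_contra hcon
  push Not at hcon
  obtain ⟨n, hn⟩ := exists_nat_gt ((A.card : ℝ) / (∑ f ∈ A, lam f - m * B))
  have hpos : 0 < ∑ f ∈ A, lam f - m * B := by linarith
  rw [div_lt_iff₀ hpos] at hn
  have h1 := h ⌊(n : ℝ) * m⌋₊ (fun f => ⌊(n : ℝ) * lam f⌋₊) (by
    intro z hz
    apply Nat.le_floor
    push_cast
    calc ∑ f ∈ A.filter (fun f => R f z), ((⌊(n : ℝ) * lam f⌋₊ : ℕ) : ℝ) ≤ ∑ f ∈ A.filter (fun f => R f z), (n : ℝ) * lam f := by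
          apply Finset.sum_le_sum
          intro f hf
          exact Nat.floor_le (mul_nonneg (Nat.cast_nonneg _) (h0 f (Finset.mem_filter.1 hf).1))
      _ = (n : ℝ) * ∑ f ∈ A.filter (fun f => R f z), lam f := by rw [Finset.mul_sum]
      _ ≤ (n : ℝ) * m := mul_le_mul_of_nonneg_left (hl z hz) (Nat.cast_nonneg _))
  have h2 : ((∑ f ∈ A, ⌊(n : ℝ) * lam f⌋₊ : ℕ) : ℝ) ≤ (⌊(n : ℝ) * m⌋₊ : ℝ) * B := by exact_mod_cast h1
  have h3 : (n : ℝ) * ∑ f ∈ A, lam f - A.card ≤ ((∑ f ∈ A, ⌊(n : ℝ) * lam f⌋₊ : ℕ) : ℝ) := by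
    push_cast
    rw [Finset.mul_sum]
    have : (A.card : ℝ) = ∑ _f ∈ A, (1 : ℝ) := by simp
    rw [this, ← Finset.sum_sub_distrib]
    apply Finset.sum_le_sum
    intro f _
    have := Nat.lt_floor_add_one ((n : ℝ) * lam f)
    linarith
  have h4 : (⌊(n : ℝ) * m⌋₊ : ℝ) * B ≤ (n : ℝ) * m * B :=
    mul_le_mul_of_nonneg_right (Nat.floor_le (mul_nonneg (Nat.cast_nonneg _) hm)) (Nat.cast_nonneg _)
  nlinarith

/-- the load map. -/
noncomputable def hrDU_L {T Z : Type*} (A : Finset T) (G : Finset Z) (R : T → Z → Prop) [∀ f z, Decidable (R f z)] (c : G → ℝ) : A → ℝ :=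
  fun f => ∑ z : G, if R f.1 z.1 then c z else 0

/-- row DU (abstract). LP duality: real weights. -/
theorem dual {T Z : Type*} [DecidableEq T] [DecidableEq Z] (A : Finset T) (G : Finset Z)
    (R : T → Z → Prop) [∀ f z, Decidable (R f z)] (B : ℕ)
    (hne : ∀ f ∈ A, ∃ z ∈ G, R f z)
    (h : ∀ (k : ℕ) (w : T → ℕ), (∀ z ∈ G, ∑ f ∈ A.filter (fun f => R f z), w f ≤ k) →
      ∑ f ∈ A, w f ≤ k * B) :
    ∃ c : Z → ℝ, (∀ z, 0 ≤ c z) ∧ (∀ f ∈ A, 1 ≤ ∑ z ∈ G.filter (fun z => R f z), c z) ∧
      ∑ z ∈ G, c z ≤ B := by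
  have _ := hne
  obtain ⟨Δ, hΔ⟩ : ∃ Δ : Set (G → ℝ), Δ = {c : G → ℝ | (∀ z, 0 ≤ c z) ∧ ∑ z, c z ≤ (B : ℝ)} := ⟨_, rfl⟩
  have hmem : ∀ c : G → ℝ, c ∈ Δ ↔ (∀ z, 0 ≤ c z) ∧ ∑ z, c z ≤ (B : ℝ) := by
    intro c
    rw [hΔ]
    exact Iff.rfl
  have hclosed : IsClosed Δ := by
    have e : Δ = (⋂ z : G, {c : G → ℝ | 0 ≤ c z}) ∩ {c : G → ℝ | ∑ z, c z ≤ (B : ℝ)} := by
      ext c
      rw [hmem]
      simp
    rw [e]
    refine IsClosed.inter (isClosed_iInter fun z => isClosed_le continuous_const (continuous_apply z)) (isClosed_le ?_ continuous_const)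
    exact continuous_finsetSum _ fun z _ => continuous_apply z
  have hcompact : IsCompact Δ := by
    refine (isCompact_Icc (a := (0 : G → ℝ)) (b := fun _ => (B : ℝ))).of_isClosed_subset hclosed ?_
    intro c hc
    rw [hmem] at hc
    refine ⟨fun z => hc.1 z, fun z => ?_⟩
    exact (Finset.single_le_sum (f := c) (fun i _ => hc.1 i) (Finset.mem_univ z)).trans hc.2
  have hLc : Continuous (hrDU_L A G R) := by
    unfold hrDU_L
    refine continuous_pi fun f => continuous_finsetSum _ fun z _ => ?_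
    by_cases hR : R f.1 z.1
    · simp only [hR, if_true]
      exact continuous_apply z
    · simp only [hR, if_false]
      exact continuous_const
  have hΔc : Convex ℝ Δ := by
    intro c hc d hd p r hp hr hpr
    rw [hmem] at hc hd ⊢
    refine ⟨fun z => ?_, ?_⟩
    · simp only [Pi.add_apply, Pi.smul_apply, smul_eq_mul]
      exact add_nonneg (mul_nonneg hp (hc.1 z)) (mul_nonneg hr (hd.1 z))
    · simp only [Pi.add_apply, Pi.smul_apply, smul_eq_mul]
      rw [Finset.sum_add_distrib, ← Finset.mul_sum, ← Finset.mul_sum]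
      have h1 := mul_le_mul_of_nonneg_left hc.2 hp
      have h2 := mul_le_mul_of_nonneg_left hd.2 hr
      have h3 : p * (B : ℝ) + r * B = B := by rw [← add_mul, hpr, one_mul]
      linarith
  have hLlin : ∀ (c d : G → ℝ) (p r : ℝ), hrDU_L A G R (p • c + r • d) = p • hrDU_L A G R c + r • hrDU_L A G R d := by
    intro c d p r
    funext f
    simp only [hrDU_L, Pi.add_apply, Pi.smul_apply, smul_eq_mul]
    rw [Finset.mul_sum, Finset.mul_sum, ← Finset.sum_add_distrib]
    apply Finset.sum_congr rfl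
    intro z _
    by_cases hR : R f.1 z.1
    · simp only [hR, if_true]
    · simp only [hR, if_false, mul_zero, add_zero]
  have hSc : Convex ℝ (hrDU_L A G R '' Δ) := by
    rintro _ ⟨c, hc, rfl⟩ _ ⟨d, hd, rfl⟩ p r hp hr hpr
    exact ⟨p • c + r • d, hΔc hc hd hp hr hpr, hLlin c d p r⟩
  have hSk : IsCompact (hrDU_L A G R '' Δ) := hcompact.image hLc
  obtain ⟨W, hW⟩ : ∃ W : Set (A → ℝ), W = {u | ∀ f, 1 ≤ u f} := ⟨_, rfl⟩
  have hWm : ∀ u : A → ℝ, u ∈ W ↔ ∀ f, 1 ≤ u f := by
    intro u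
    rw [hW]
    exact Iff.rfl
  have hWcl : IsClosed W := by
    have e : W = ⋂ f : A, {u : A → ℝ | 1 ≤ u f} := by
      ext u
      rw [hWm]
      simp
    rw [e]
    exact isClosed_iInter fun f => isClosed_le continuous_const (continuous_apply f)
  have hWc : Convex ℝ W := by
    intro u hu v hv p r hp hr hpr
    rw [hWm] at hu hv ⊢
    intro f
    simp only [Pi.add_apply, Pi.smul_apply, smul_eq_mul]
    have h1 := mul_le_mul_of_nonneg_left (hu f) hp
    have h2 := mul_le_mul_of_nonneg_left (hv f) hr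
    linarith
  by_cases hdis : Disjoint (hrDU_L A G R '' Δ) W
  · exfalso
    obtain ⟨φ, u, v, hu, huv, hv⟩ := geometric_hahn_banach_compact_closed hSc hSk hWc hWcl hdis
    obtain ⟨lam, hlam⟩ : ∃ lam : A → ℝ, lam = fun f => φ (Pi.single f 1) := ⟨_, rfl⟩
    have hφ : ∀ x : A → ℝ, φ x = ∑ f, x f * lam f := by
      intro x
      have h1 : x = ∑ f, x f • (Pi.single f (1 : ℝ) : A → ℝ) := by
        funext g
        rw [Finset.sum_apply]
        simp [Pi.single_apply]
      conv_lhs => rw [h1]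
      rw [map_sum]
      apply Finset.sum_congr rfl
      intro f _
      rw [map_smul, smul_eq_mul, hlam]
    have hl0 : ∀ f, 0 ≤ lam f := by
      intro f
      by_contra hneg
      push Not at hneg
      have h1 : ∀ t : ℝ, 0 ≤ t → v < ∑ g, lam g + t * lam f := by
        intro t ht
        have h2 := hv (fun g => 1 + t * (Pi.single f (1 : ℝ) : A → ℝ) g) (by
          rw [hWm]
          intro g
          have : 0 ≤ (Pi.single f (1 : ℝ) : A → ℝ) g := by
            by_cases hg : g = f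
            · rw [hg]; simp
            · simp [hg]
          nlinarith)
        rw [hφ] at h2
        have h3 : ∑ g, (1 + t * (Pi.single f (1 : ℝ) : A → ℝ) g) * lam g = ∑ g, lam g + t * lam f := by
          have e1 : ∀ g : A, (1 + t * (Pi.single f (1 : ℝ) : A → ℝ) g) * lam g = lam g + t * ((Pi.single f (1 : ℝ) : A → ℝ) g * lam g) := fun g => by ring
          rw [Finset.sum_congr rfl (fun g _ => e1 g), Finset.sum_add_distrib, ← Finset.mul_sum]
          congr 2
          simp [Pi.single_apply]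
        rwa [h3] at h2
      have h4 := h1 ((∑ g, lam g - v) / (-lam f)) (by
        have := h1 0 le_rfl
        rw [zero_mul, add_zero] at this
        exact div_nonneg (by linarith) (by linarith))
      have h5 : (∑ g, lam g - v) / (-lam f) * lam f = -(∑ g, lam g - v) := by
        rw [div_mul_eq_mul_div, div_eq_iff (neg_ne_zero.2 hneg.ne)]
        ring
      rw [h5] at h4
      linarith
    have hone : v < ∑ g, lam g := by
      have h2 := hv (fun _ => 1) (by
        rw [hWm]
        intro g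
        exact le_rfl)
      rw [hφ] at h2
      simpa using h2
    -- the loads
    have hload : ∀ z : G, B * (∑ f : A, if R f.1 z.1 then lam f else 0) < u := by
      intro z
      have h2 := hu _ ⟨fun z' => if z' = z then (B : ℝ) else 0, (by
        rw [hmem]
        refine ⟨fun z' => ?_, ?_⟩
        · by_cases hz : z' = z
          · simp [hz]
          · simp [hz]
        · simp), rfl⟩
      rw [hφ] at h2
      have h3 : ∀ f : A, hrDU_L A G R (fun z' => if z' = z then (B : ℝ) else 0) f = if R f.1 z.1 then (B : ℝ) else 0 := by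
        intro f
        unfold hrDU_L
        have e1 : ∀ z' : G, (if R f.1 z'.1 then (if z' = z then (B : ℝ) else 0) else 0) = if z' = z then (if R f.1 z.1 then (B : ℝ) else 0) else 0 := by
          intro z'
          by_cases hz : z' = z
          · subst hz
            simp
          · simp [hz]
        rw [Finset.sum_congr rfl (fun z' _ => e1 z')]
        simp
      have h4 : ∑ f : A, hrDU_L A G R (fun z' => if z' = z then (B : ℝ) else 0) f * lam f = B * (∑ f : A, if R f.1 z.1 then lam f else 0) := by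
        rw [Finset.mul_sum]
        apply Finset.sum_congr rfl
        intro f _
        rw [h3 f]
        by_cases hR : R f.1 z.1
        · simp [hR]
        · simp [hR]
      rwa [h4] at h2
    have hu0 : 0 < u := by
      have h2 := hu _ ⟨fun _ => 0, (by
        rw [hmem]
        exact ⟨fun _ => le_rfl, by simp⟩), rfl⟩
      rw [hφ] at h2
      have h3 : ∀ f : A, hrDU_L A G R (fun _ => 0) f = 0 := by
        intro f
        unfold hrDU_L
        simp
      simpa [h3] using h2
    -- extension of lam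
    obtain ⟨mu, hmu⟩ : ∃ mu : T → ℝ, mu = fun f => if hf : f ∈ A then lam ⟨f, hf⟩ else 0 := ⟨_, rfl⟩
    have hmu1 : ∀ f : A, mu f.1 = lam f := by
      intro f
      rw [hmu]
      simp
    have hsum : ∑ f ∈ A, mu f = ∑ f, lam f := by
      rw [← Finset.sum_coe_sort A mu]
      exact Finset.sum_congr rfl fun f _ => hmu1 f
    have hsumz : ∀ z : Z, ∑ f ∈ A.filter (fun f => R f z), mu f = ∑ f : A, if R f.1 z then lam f else 0 := by
      intro z
      rw [Finset.sum_filter, ← Finset.sum_coe_sort A]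
      refine Finset.sum_congr rfl fun f _ => ?_
      rw [hmu1]
    obtain ⟨m, hm0, hm1, hm2⟩ : ∃ m : ℝ, 0 ≤ m ∧ (∀ z ∈ G, ∑ f ∈ A.filter (fun f => R f z), mu f ≤ m) ∧ m * B < v := by
      rcases G.eq_empty_or_nonempty with hG | hG
      · refine ⟨0, le_rfl, ?_, by rw [zero_mul]; linarith⟩
        rw [hG]
        simp
      · obtain ⟨z₀, hz₀, hmax⟩ := Finset.exists_max_image G (fun z => ∑ f ∈ A.filter (fun f => R f z), mu f) hG
        refine ⟨∑ f ∈ A.filter (fun f => R f z₀), mu f, ?_, hmax, ?_⟩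
        · apply Finset.sum_nonneg
          intro f hf
          have hfA := (Finset.mem_filter.1 hf).1
          have := hl0 ⟨f, hfA⟩
          rwa [← hmu1 ⟨f, hfA⟩] at this
        · have := hload ⟨z₀, hz₀⟩
          rw [hsumz, mul_comm]
          linarith
    have hfin := hrDU_real A G R B h mu (fun f hf => by
      have := hl0 ⟨f, hf⟩
      rwa [← hmu1 ⟨f, hf⟩] at this) m hm0 hm1
    rw [hsum] at hfin
    linarith
  · rw [Set.not_disjoint_iff] at hdis
    obtain ⟨_, ⟨c, hc, rfl⟩, hcW⟩ := hdis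
    rw [hmem] at hc
    rw [hWm] at hcW
    obtain ⟨d, hd⟩ : ∃ d : Z → ℝ, d = fun z => if hz : z ∈ G then c ⟨z, hz⟩ else 0 := ⟨_, rfl⟩
    have hd1 : ∀ z : G, d z.1 = c z := by
      intro z
      rw [hd]
      simp
    refine ⟨d, fun z => ?_, fun f hf => ?_, ?_⟩
    · by_cases hz : z ∈ G
      · have := hd1 ⟨z, hz⟩
        simp only [] at this
        rw [this]
        exact hc.1 _
      · rw [hd]
        simp [hz]
    · have h1 := hcW ⟨f, hf⟩
      unfold hrDU_L at h1
      rw [Finset.sum_filter, ← Finset.sum_coe_sort G]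
      refine h1.trans (le_of_eq (Finset.sum_congr rfl fun z _ => ?_))
      rw [hd1]
    · rw [← Finset.sum_coe_sort G]
      refine (le_of_eq (Finset.sum_congr rfl fun z _ => ?_)).trans hc.2
      rw [hd1]

end Pool.Agent.helper78.HR
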